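import Pool.Agent.Mg.Fe4fe74.G0ab0d8

open MeasureTheory Pool.Agent.MP_e4fe74_an in
theorem Pool.Agent.Results.MP_e4fe74_an.H3.result (E : Type) [NormedAddCommGroup E]
    [InnerProductSpace ℝ E] [FiniteDimensional ℝ E] [MeasurableSpace E] [BorelSpace E]
    (hE : Module.finrank ℝ E = 3) (p : ENNReal) [Fact (1 ≤ p)] (h2 : 2 < p) (ht : p ≠ ⊤) :
    ∃ (T : Lp ℂ p (hypVol E) → Lp ℂ p (hypVol E)) (m : ℂ → ℂ), IsBoundedLinearMap ℂ T ∧
      (∀ g, IsLorentz g → ∀ F H : Lp ℂ p (hypVol E),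
        H =ᵐ[hypVol E] F ∘ act g → T H =ᵐ[hypVol E] T F ∘ act g) ∧
      DifferentiableOn ℂ m {l | |l.im| < |2 / p.toReal - 1|} ∧ (∀ l, m (-l) = m l) ∧
      (∀ l : ℂ, |l.im| ≤ |2 / p.toReal - 1| → ‖m l‖ ≤ 1) ∧
      (∀ f : E → ℂ, Continuous f → HasCompactSupport f →
        ∀ F : Lp ℂ p (hypVol E), F =ᵐ[hypVol E] f → ∀ l : ℂ, |l.im| ≤ |2 / p.toReal - 1| →
          ∀ b : E, ‖b‖ = 1 → Integrable (fun x => T F x * helgasonKernel l b x) (hypVol E) ∧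
            ∫ x, T F x * helgasonKernel l b x ∂hypVol E =
              m l * ∫ x, f x * helgasonKernel l b x ∂hypVol E) ∧
      ∃ F : Lp ℂ p (hypVol E), Dense (Set.range fun n : ℕ => T^[n] F) :=
  Pool.Agent.MP_e4fe74_an.main E hE p h2 ht
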